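import Pool.Agent.K1H88.DP.Stm

/-! Project DP, piece RAT: a cluster with more than half of all points contains a rational point. -/

set_option autoImplicit false

namespace Pool.Agent.K1H39.DP

open Pool.Agent.K1H88.DP

variable {ι : Type} [Fintype ι] (E : ι → Type) [∀ k, Field (E k)] [∀ k, NumberField (E k)]

/-- Galois action on the embeddings. -/
noncomputable def gal (p : Nat.Primes) (τ : Kp p ≃ₐ[ℚ_[(p : ℕ)]] Kp p) (i : Emb E (Kp p)) : Emb E (Kp p) :=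
  ⟨i.1, (τ : Kp p →+* Kp p).comp i.2⟩

variable {E}

theorem gal_inj (p : Nat.Primes) (τ : Kp p ≃ₐ[ℚ_[(p : ℕ)]] Kp p) :
    Function.Injective (gal E p τ) := by
  rintro ⟨k, s⟩ ⟨k', s'⟩ h
  simp only [gal, Sigma.mk.injEq] at h
  obtain ⟨rfl, h⟩ := h
  have h := eq_of_heq h
  congr 1
  ext a
  have := RingHom.congr_fun h a
  exact τ.injective this

theorem norm_gal (p : Nat.Primes) (τ : Kp p ≃ₐ[ℚ_[(p : ℕ)]] Kp p) (a : Kp p) : ‖τ a‖ = ‖a‖ := by
  have := spectralNorm_eq_of_equiv τ a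
  rw [PadicAlgCl.spectralNorm_eq, PadicAlgCl.spectralNorm_eq] at this
  exact this.symm

theorem vn_gal (p : Nat.Primes) (τ : Kp p ≃ₐ[ℚ_[(p : ℕ)]] Kp p) (x y : ∀ k, E k)
    (i : Emb E (Kp p)) : vn E x y (gal E p τ i) = vn E x y i := by
  unfold vn
  have h1 : (gal E p τ i).2 (x (gal E p τ i).1) = τ (i.2 (x i.1)) := rfl
  have h2 : (gal E p τ i).2 (y (gal E p τ i).1) = τ (i.2 (y i.1)) := rfl
  rw [h1, h2, norm_gal, norm_gal]

theorem pl_gal (p : Nat.Primes) (τ : Kp p ≃ₐ[ℚ_[(p : ℕ)]] Kp p) (x y : ∀ k, E k)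
    (i j : Emb E (Kp p)) : pl E x y (gal E p τ i) (gal E p τ j) = τ (pl E x y i j) := by
  unfold pl
  rw [map_sub, map_mul, map_mul]
  rfl

theorem pl_swap {p : Nat.Primes} (x y : ∀ k, E k) (i j : Emb E (Kp p)) :
    pl E y x i j = -pl E x y i j := by
  unfold pl; ring

theorem vn_swap {p : Nat.Primes} (x y : ∀ k, E k) (i : Emb E (Kp p)) :
    vn E y x i = vn E x y i := max_comm _ _

/-- The case where all `‖y_i‖` are maximal. -/
theorem rat_case (p : Nat.Primes) (x y : ∀ k, E k) (κ : ℝ) (S : Finset (Emb E (Kp p)))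
    (hv : ∀ i : Emb E (Kp p), vn E x y i ≠ 0)
    (hc : Fintype.card (Emb E (Kp p)) < 2 * S.card)
    (hS : ∀ i ∈ S, ∀ j, j ∈ S ↔ ‖pl E x y i j‖ ≤ κ * (vn E x y i * vn E x y j))
    (hκ : κ ≤ ‖((S.card : ℕ) : Kp p)‖ / (p : ℕ))
    (hy : ∀ i ∈ S, ‖i.2 (y i.1)‖ = vn E x y i) :
    ∃ m : ℤ, ∀ i ∈ S, ‖i.2 (x i.1) - m * i.2 (y i.1)‖ ≤ vn E x y i / (p : ℕ) := by
  classical
  have hvp : ∀ i : Emb E (Kp p), 0 < vn E x y i := fun i =>
    lt_of_le_of_ne ((norm_nonneg _).trans (le_max_left _ _)) (hv i).symm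
  have hp0 : (0 : ℝ) < (p : ℕ) := by exact_mod_cast p.2.pos
  have hS0 : 0 < S.card := by omega
  have hSK : ((S.card : ℕ) : Kp p) ≠ 0 := by exact_mod_cast hS0.ne'
  have hSn : 0 < ‖((S.card : ℕ) : Kp p)‖ := norm_pos_iff.2 hSK
  have hSne : S.Nonempty := Finset.card_pos.1 hS0
  have hyne : ∀ i ∈ S, i.2 (y i.1) ≠ 0 := by
    intro i hi h
    have := hy i hi
    rw [h, norm_zero] at this
    exact hv i this.symm
  have hκ0 : 0 ≤ κ := by
    obtain ⟨i, hi⟩ := hSne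
    have h := (hS i hi i).1 hi
    have h2 := (norm_nonneg _).trans h
    have h3 := mul_pos (hvp i) (hvp i)
    by_contra hcon
    push Not at hcon
    nlinarith
  -- tau S = S
  have hgal : ∀ τ : Kp p ≃ₐ[ℚ_[(p : ℕ)]] Kp p, S.image (gal E p τ) = S := by
    intro τ
    have hcard : (S.image (gal E p τ)).card = S.card := Finset.card_image_of_injective _ (gal_inj p τ)
    apply Finset.eq_of_subset_of_card_le _ hcard.ge
    -- the intersection is nonempty
    have hint : (S.image (gal E p τ) ∩ S).Nonempty := by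
      rw [← Finset.card_pos]
      have h1 := Finset.card_inter_add_card_union (S.image (gal E p τ)) S
      have h2 : (S.image (gal E p τ) ∪ S).card ≤ Fintype.card (Emb E (Kp p)) :=
        Finset.card_le_univ _
      omega
    obtain ⟨i', hi'⟩ := hint
    rw [Finset.mem_inter, Finset.mem_image] at hi'
    obtain ⟨⟨i, hi, rfl⟩, hi2⟩ := hi'
    intro j' hj'
    rw [Finset.mem_image] at hj'
    obtain ⟨j, hj, rfl⟩ := hj'
    rw [hS _ hi2, pl_gal, norm_gal, vn_gal, vn_gal]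
    exact (hS i hi j).1 hj
  -- the sum of the points
  set z : Emb E (Kp p) → Kp p := fun i => i.2 (x i.1) / i.2 (y i.1) with hz
  have hzgal : ∀ (τ : Kp p ≃ₐ[ℚ_[(p : ℕ)]] Kp p) i, z (gal E p τ i) = τ (z i) := by
    intro τ i
    simp only [hz]
    rw [map_div₀]
    rfl
  have hzd : ∀ i ∈ S, ∀ j ∈ S, ‖z i - z j‖ ≤ κ := by
    intro i hi j hj
    have e : z i - z j = pl E x y i j / (i.2 (y i.1) * j.2 (y j.1)) := by
      simp only [hz, pl]
      rw [div_sub_div _ _ (hyne i hi) (hyne j hj)]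
      congr 1
      ring
    rw [e, norm_div, norm_mul, hy i hi, hy j hj, div_le_iff₀ (mul_pos (hvp i) (hvp j))]
    exact (hS i hi j).1 hj
  have hz1 : ∀ i ∈ S, ‖z i‖ ≤ 1 := by
    intro i hi
    simp only [hz]
    rw [norm_div, div_le_one (by rw [hy i hi]; exact hvp i), hy i hi]
    exact le_max_left _ _
  set r : Kp p := ∑ i ∈ S, z i with hr
  have hfix : ∀ τ : Kp p ≃ₐ[ℚ_[(p : ℕ)]] Kp p, τ r = r := by
    intro τ
    rw [hr, map_sum]
    conv_rhs => rw [← hgal τ]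
    rw [Finset.sum_image (fun a _ b _ h => gal_inj p τ h)]
    exact Finset.sum_congr rfl fun i _ => (hzgal τ i).symm
  have hrat : r ∈ Set.range (algebraMap ℚ_[(p : ℕ)] (Kp p)) := by
    rw [InfiniteGalois.mem_range_algebraMap_iff_fixed]
    exact hfix
  obtain ⟨q₀, hq₀⟩ := hrat
  set q : ℚ_[(p : ℕ)] := q₀ / (S.card : ℕ) with hq
  have hqK : (algebraMap ℚ_[(p : ℕ)] (Kp p)) q = r / ((S.card : ℕ) : Kp p) := by
    rw [hq, map_div₀, hq₀, map_natCast]
  -- z_i is close to q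
  have hzq : ∀ i ∈ S, ‖z i - algebraMap ℚ_[(p : ℕ)] (Kp p) q‖ ≤ 1 / (p : ℕ) := by
    intro i hi
    have e : z i - algebraMap ℚ_[(p : ℕ)] (Kp p) q = (∑ j ∈ S, (z i - z j)) / ((S.card : ℕ) : Kp p) := by
      rw [hqK, Finset.sum_sub_distrib, Finset.sum_const, nsmul_eq_mul, ← hr, sub_div,
        mul_div_cancel_left₀ _ hSK]
    rw [e, norm_div, div_le_iff₀ hSn]
    have h1 : ‖∑ j ∈ S, (z i - z j)‖ ≤ κ :=
      IsUltrametricDist.norm_sum_le_of_forall_le_of_nonneg hκ0 fun j hj => hzd i hi j hj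
    refine h1.trans (hκ.trans (le_of_eq ?_))
    ring
  have hp1 : (1 : ℝ) / (p : ℕ) ≤ 1 := by
    rw [div_le_one hp0]
    exact_mod_cast p.2.one_lt.le
  have hqn : ‖q‖ ≤ 1 := by
    obtain ⟨i, hi⟩ := hSne
    have h1 : ‖algebraMap ℚ_[(p : ℕ)] (Kp p) q‖ ≤ 1 := by
      have e : algebraMap ℚ_[(p : ℕ)] (Kp p) q = z i - (z i - algebraMap ℚ_[(p : ℕ)] (Kp p) q) := by
        ring
      rw [e, sub_eq_add_neg]
      refine (IsUltrametricDist.norm_add_le_max _ _).trans (max_le (hz1 i hi) ?_)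
      rw [norm_neg]
      exact (hzq i hi).trans hp1
    rwa [PadicAlgCl.norm_extends] at h1
  -- an integer close to q
  obtain ⟨m, hm⟩ : ∃ m : ℤ, ‖q - m‖ ≤ 1 / (p : ℕ) := by
    obtain ⟨Q, hQ⟩ : ∃ Q : ℤ_[(p : ℕ)], (Q : ℚ_[(p : ℕ)]) = q := ⟨⟨q, hqn⟩, rfl⟩
    obtain ⟨n, -, hn⟩ := PadicInt.exists_mem_range Q
    refine ⟨n, ?_⟩
    have h1 : ‖Q - (n : ℤ_[(p : ℕ)])‖ < 1 := by
      rw [IsLocalRing.mem_maximalIdeal, PadicInt.mem_nonunits] at hn
      exact hn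
    have h2 : ‖Q - (n : ℤ_[(p : ℕ)])‖ ≤ ((p : ℕ) : ℝ) ^ (-1 : ℤ) := by
      rw [PadicInt.norm_le_pow_iff_norm_lt_pow_add_one]
      simpa using h1
    rw [PadicInt.norm_def] at h2
    push_cast at h2
    rw [zpow_neg_one, hQ] at h2
    rw [one_div]
    simpa using h2
  refine ⟨m, fun i hi => ?_⟩
  have h1 : ‖z i - (m : Kp p)‖ ≤ 1 / (p : ℕ) := by
    have e : z i - (m : Kp p) = (z i - algebraMap ℚ_[(p : ℕ)] (Kp p) q) +
        algebraMap ℚ_[(p : ℕ)] (Kp p) (q - m) := by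
      rw [map_sub, map_intCast]; ring
    rw [e]
    refine (IsUltrametricDist.norm_add_le_max _ _).trans (max_le (hzq i hi) ?_)
    rw [PadicAlgCl.norm_extends]
    exact hm
  have e : i.2 (x i.1) - m * i.2 (y i.1) = (z i - m) * i.2 (y i.1) := by
    simp only [hz]
    rw [sub_mul, div_mul_cancel₀ _ (hyne i hi)]
  rw [e, norm_mul, hy i hi]
  calc ‖z i - (m : Kp p)‖ * vn E x y i ≤ 1 / (p : ℕ) * vn E x y i :=
        mul_le_mul_of_nonneg_right h1 (hvp i).le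
    _ = vn E x y i / (p : ℕ) := by ring

theorem t_RAT : S_RAT := by
  intro ι _ E _ _ p x y κ S hv hc hS hκ
  have hvp : ∀ i : Emb E (Kp p), 0 < vn E x y i := fun i =>
    lt_of_le_of_ne ((norm_nonneg _).trans (le_max_left _ _)) (hv i).symm
  have hp0 : (0 : ℝ) < (p : ℕ) := by exact_mod_cast p.2.pos
  have hκ1 : κ < 1 := by
    refine lt_of_le_of_lt hκ ?_
    rw [div_lt_one hp0]
    have h1 : ‖((S.card : ℕ) : Kp p)‖ ≤ 1 := by
      rw [← map_natCast (algebraMap ℚ_[(p : ℕ)] (Kp p)), PadicAlgCl.norm_extends]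
      exact_mod_cast Padic.norm_int_le_one (p := (p : ℕ)) (S.card : ℤ)
    refine lt_of_le_of_lt h1 ?_
    exact_mod_cast p.2.one_lt
  by_cases h : ∀ i ∈ S, ‖i.2 (y i.1)‖ = vn E x y i
  · obtain ⟨m, hm⟩ := rat_case p x y κ S hv hc hS hκ h
    exact ⟨m, Or.inl hm⟩
  · have h' : ∀ j ∈ S, ‖j.2 (x j.1)‖ = vn E x y j := by
      by_contra h'
      push Not at h h'
      obtain ⟨i, hi, hi2⟩ := h
      obtain ⟨j, hj, hj2⟩ := h'
      have a1 : ‖i.2 (y i.1)‖ < vn E x y i := lt_of_le_of_ne (le_max_right _ _) hi2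
      have a2 : ‖j.2 (x j.1)‖ < vn E x y j := lt_of_le_of_ne (le_max_left _ _) hj2
      have a3 : ‖i.2 (x i.1)‖ = vn E x y i := by
        unfold vn at a1 ⊢
        rcases max_choice ‖i.2 (x i.1)‖ ‖i.2 (y i.1)‖ with e | e
        · exact e.symm
        · rw [e] at a1; exact absurd a1 (lt_irrefl _)
      have a4 : ‖j.2 (y j.1)‖ = vn E x y j := by
        unfold vn at a2 ⊢
        rcases max_choice ‖j.2 (x j.1)‖ ‖j.2 (y j.1)‖ with e | e
        · rw [e] at a2; exact absurd a2 (lt_irrefl _)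
        · exact e.symm
      have b1 : ‖j.2 (x j.1) * i.2 (y i.1)‖ < ‖i.2 (x i.1) * j.2 (y j.1)‖ := by
        rw [norm_mul, norm_mul, a3, a4, mul_comm (vn E x y i)]
        exact mul_lt_mul'' a2 a1 (norm_nonneg _) (norm_nonneg _)
      have b2 : ‖pl E x y i j‖ = vn E x y i * vn E x y j := by
        unfold pl
        rw [sub_eq_add_neg, IsUltrametricDist.norm_add_eq_max_of_norm_ne_norm
          (by rw [norm_neg]; exact b1.ne'), norm_neg, max_eq_left b1.le, norm_mul, a3, a4]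
      have b3 := (hS i hi j).1 hj
      rw [b2] at b3
      nlinarith [mul_pos (hvp i) (hvp j)]
    have hS' : ∀ i ∈ S, ∀ j, j ∈ S ↔ ‖pl E y x i j‖ ≤ κ * (vn E y x i * vn E y x j) := by
      intro i hi j
      rw [pl_swap, norm_neg, vn_swap x y i, vn_swap x y j]
      exact hS i hi j
    obtain ⟨m, hm⟩ := rat_case p y x κ S (fun i => by rw [vn_swap]; exact hv i) hc hS' hκ
      (fun i hi => by rw [vn_swap]; exact h' i hi)
    refine ⟨m, Or.inr fun i hi => ?_⟩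
    have := hm i hi
    rwa [vn_swap] at this

end Pool.Agent.K1H39.DP
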